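import Mathlib
import Pool.Agent.H696R3.HardCoreMain

set_option autoImplicit false
open Classical

namespace Pool.Agent.Results.MP_dc9350_co.CrowdedExchange

open Pool.Agent.H696R3.HardCore

/-- Caro-Wei bound for the mean size of a hard-core random independent set. Part 1: it holds for
every graph and every t > 0 such that 1/D_v <= 1/D_u + 1/D_w whenever u, w are distinct
nonadjacent neighbours of v, where D_v = 1 + (deg v + 1) t. Part 2: it holds if all degrees are at
most a, all degrees that are at least 2 are at least b, and (a - 2b - 1) t <= 1. Part 3: it holds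
if all degrees are at most a and (a - 5) t <= 1; in particular for all t > 0 if a <= 5. -/
theorem result :
    (∀ (V : Type) [Fintype V] (G : SimpleGraph V) (t : ℝ), 0 < t →
      (∀ v u w : V, G.Adj v u → G.Adj v w → u ≠ w → ¬ G.Adj u w →
        1 / (1 + ((G.degree v : ℝ) + 1) * t)
          ≤ 1 / (1 + ((G.degree u : ℝ) + 1) * t) + 1 / (1 + ((G.degree w : ℝ) + 1) * t)) →
      (∑ v : V, t / (1 + ((G.degree v : ℝ) + 1) * t)) ≤
        (∑ I ∈ (Finset.univ : Finset (Finset V)).filter
              (fun I : Finset V => G.IsIndepSet (↑I : Set V)),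
            ((Finset.card I : ℕ) : ℝ) * t ^ (Finset.card I)) /
        (∑ I ∈ (Finset.univ : Finset (Finset V)).filter
              (fun I : Finset V => G.IsIndepSet (↑I : Set V)),
            t ^ (Finset.card I))) ∧
    (∀ (V : Type) [Fintype V] (G : SimpleGraph V) (t : ℝ) (a b : ℕ), 0 < t →
      (∀ v : V, G.degree v ≤ a) → (∀ v : V, 2 ≤ G.degree v → b ≤ G.degree v) →
      ((a : ℝ) - 2 * b - 1) * t ≤ 1 →
      (∑ v : V, t / (1 + ((G.degree v : ℝ) + 1) * t)) ≤
        (∑ I ∈ (Finset.univ : Finset (Finset V)).filter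
              (fun I : Finset V => G.IsIndepSet (↑I : Set V)),
            ((Finset.card I : ℕ) : ℝ) * t ^ (Finset.card I)) /
        (∑ I ∈ (Finset.univ : Finset (Finset V)).filter
              (fun I : Finset V => G.IsIndepSet (↑I : Set V)),
            t ^ (Finset.card I))) ∧
    (∀ (V : Type) [Fintype V] (G : SimpleGraph V) (t : ℝ) (a : ℕ), 0 < t →
      (∀ v : V, G.degree v ≤ a) → ((a : ℝ) - 5) * t ≤ 1 →
      (∑ v : V, t / (1 + ((G.degree v : ℝ) + 1) * t)) ≤
        (∑ I ∈ (Finset.univ : Finset (Finset V)).filter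
              (fun I : Finset V => G.IsIndepSet (↑I : Set V)),
            ((Finset.card I : ℕ) : ℝ) * t ^ (Finset.card I)) /
        (∑ I ∈ (Finset.univ : Finset (Finset V)).filter
              (fun I : Finset V => G.IsIndepSet (↑I : Set V)),
            t ^ (Finset.card I))) := by
  have part1 : ∀ (V : Type) [Fintype V] (G : SimpleGraph V) (t : ℝ), 0 < t →
      (∀ v u w : V, G.Adj v u → G.Adj v w → u ≠ w → ¬ G.Adj u w →
        1 / (1 + ((G.degree v : ℝ) + 1) * t)
          ≤ 1 / (1 + ((G.degree u : ℝ) + 1) * t) + 1 / (1 + ((G.degree w : ℝ) + 1) * t)) →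
      (∑ v : V, t / (1 + ((G.degree v : ℝ) + 1) * t)) ≤
        (∑ I ∈ (Finset.univ : Finset (Finset V)).filter
              (fun I : Finset V => G.IsIndepSet (↑I : Set V)),
            ((Finset.card I : ℕ) : ℝ) * t ^ (Finset.card I)) /
        (∑ I ∈ (Finset.univ : Finset (Finset V)).filter
              (fun I : Finset V => G.IsIndepSet (↑I : Set V)),
            t ^ (Finset.card I)) := by
    intro V _ G t ht h
    exact main_div G t ht h
  have part2 : ∀ (V : Type) [Fintype V] (G : SimpleGraph V) (t : ℝ) (a b : ℕ), 0 < t →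
      (∀ v : V, G.degree v ≤ a) → (∀ v : V, 2 ≤ G.degree v → b ≤ G.degree v) →
      ((a : ℝ) - 2 * b - 1) * t ≤ 1 →
      (∑ v : V, t / (1 + ((G.degree v : ℝ) + 1) * t)) ≤
        (∑ I ∈ (Finset.univ : Finset (Finset V)).filter
              (fun I : Finset V => G.IsIndepSet (↑I : Set V)),
            ((Finset.card I : ℕ) : ℝ) * t ^ (Finset.card I)) /
        (∑ I ∈ (Finset.univ : Finset (Finset V)).filter
              (fun I : Finset V => G.IsIndepSet (↑I : Set V)),
            t ^ (Finset.card I)) := by
    intro V _ G t a b ht ha hb hab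
    refine part1 V G t ht ?_
    intro v u w hvu hvw huw _
    have hdeg : 2 ≤ G.degree v := by
      rw [← SimpleGraph.card_neighborFinset_eq_degree]
      have hsub : ({u, w} : Finset V) ⊆ G.neighborFinset v := by
        intro c hc
        rw [Finset.mem_insert, Finset.mem_singleton] at hc
        rcases hc with rfl | rfl
        · exact (G.mem_neighborFinset v _).2 hvu
        · exact (G.mem_neighborFinset v _).2 hvw
      have := Finset.card_le_card hsub
      rwa [Finset.card_pair huw] at this
    have hbv : (b : ℝ) ≤ (G.degree v : ℝ) := by exact_mod_cast hb v hdeg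
    have hau : (G.degree u : ℝ) ≤ a := by exact_mod_cast ha u
    have haw : (G.degree w : ℝ) ≤ a := by exact_mod_cast ha w
    have hDv : 0 < 1 + ((G.degree v : ℝ) + 1) * t := by positivity
    have hDu : 0 < 1 + ((G.degree u : ℝ) + 1) * t := by positivity
    have hDw : 0 < 1 + ((G.degree w : ℝ) + 1) * t := by positivity
    have key : ∀ d : ℝ, d ≤ a → 1 + (d + 1) * t ≤ 2 * (1 + ((G.degree v : ℝ) + 1) * t) := by
      intro d hd
      nlinarith [mul_le_mul_of_nonneg_right hd ht.le, mul_le_mul_of_nonneg_right hbv ht.le]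
    have hu := key _ hau
    have hw := key _ haw
    have e1 : 1 / (1 + ((G.degree v : ℝ) + 1) * t) / 2
        ≤ 1 / (1 + ((G.degree u : ℝ) + 1) * t) := by
      rw [div_div, div_le_div_iff₀ (by positivity) hDu]
      linarith
    have e2 : 1 / (1 + ((G.degree v : ℝ) + 1) * t) / 2
        ≤ 1 / (1 + ((G.degree w : ℝ) + 1) * t) := by
      rw [div_div, div_le_div_iff₀ (by positivity) hDw]
      linarith
    linarith
  refine ⟨part1, part2, ?_⟩
  intro V _ G t a ht ha hat
  refine part2 V G t a 2 ht ha (fun v hv => hv) ?_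
  push_cast
  linarith

end Pool.Agent.Results.MP_dc9350_co.CrowdedExchange
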