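import Mathlib
import Pool.Agent.H696R3.ConeClass

set_option autoImplicit false
open Classical

namespace Pool.Agent.Results.MP_dc9350_co.DominatingVertex

open Pool.Agent.H696R3.Forest Pool.Agent.H696R3.HardCore

/-- The mean size of the hard-core random independent set of `G` at fugacity `t`. -/
noncomputable def mean {V : Type} [Fintype V] (G : SimpleGraph V) (t : ℝ) : ℝ :=
  (∑ I ∈ (Finset.univ : Finset (Finset V)).filter
        (fun I : Finset V => G.IsIndepSet (↑I : Set V)),
      ((Finset.card I : ℕ) : ℝ) * t ^ (Finset.card I)) /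
  (∑ I ∈ (Finset.univ : Finset (Finset V)).filter
        (fun I : Finset V => G.IsIndepSet (↑I : Set V)),
      t ^ (Finset.card I))

/-- The Caro–Wei type sum of Q1. -/
noncomputable def caroWei {V : Type} [Fintype V] (G : SimpleGraph V) (t : ℝ) : ℝ :=
  ∑ v : V, t / (1 + ((G.degree v : ℝ) + 1) * t)

/-- `Built G W`: the induced graph `G[W]` is obtained from forests and from graphs of maximum
degree at most 5 by taking disjoint unions and adding dominating vertices, in any order and any
number of times (all pieces are induced subgraphs of `G`). -/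
inductive Built {V : Type} [Fintype V] (G : SimpleGraph V) : Finset V → Prop
  | forest (W : Finset V) (h : (G.induce (↑W : Set V)).IsAcyclic) : Built G W
  | lowdeg (W : Finset V) (h : ∀ v ∈ W, (W.filter (fun u => G.Adj v u)).card ≤ 5) : Built G W
  | union (A B : Finset V) (hAB : Disjoint A B) (hno : ∀ a ∈ A, ∀ b ∈ B, ¬ G.Adj a b)
      (hA : Built G A) (hB : Built G B) : Built G (A ∪ B)
  | dominate (W : Finset V) (v : V) (hv : v ∉ W) (hadj : ∀ u ∈ W, G.Adj v u)
      (hW : Built G W) : Built G (insert v W)

lemma good_univ {V : Type} [Fintype V] {G : SimpleGraph V} {t : ℝ} (ht : 0 < t)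
    (h : Good G Finset.univ t) : caroWei G t ≤ mean G t := by
  have hfil : (Ind G).filter (fun I => I ⊆ (Finset.univ : Finset V)) = Ind G := by
    apply Finset.filter_true_of_mem
    intro I _
    exact Finset.subset_univ I
  have hZ : Zf G t Finset.univ = ∑ I ∈ Ind G, t ^ I.card := by
    unfold Zf; rw [hfil]
  have hM : Mf G t Finset.univ = ∑ I ∈ Ind G, ((I.card : ℕ) : ℝ) * t ^ I.card := by
    unfold Mf; rw [hfil]
  have hS : Sf G (1 + 1 / t) Finset.univ = caroWei G t := by
    unfold Sf caroWei
    refine Finset.sum_congr rfl fun v _ => ?_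
    have hd : dg G Finset.univ v = G.degree v := by
      unfold dg nb
      rw [Finset.inter_univ, SimpleGraph.card_neighborFinset_eq_degree]
    rw [hd, share_eq ht]
  have hpos : 0 < Zf G t Finset.univ := Zf_pos ht _
  unfold Good at h
  rw [hZ, hM, hS] at h
  rw [hZ] at hpos
  unfold Ind at h hpos
  unfold mean
  rw [le_div_iff₀ hpos]
  exact h

lemma forest_mean {V : Type} [Fintype V] (G : SimpleGraph V) {t : ℝ} (hG : G.IsAcyclic)
    (ht : 0 < t) : caroWei G t ≤ mean G t := by
  unfold caroWei mean
  exact forest_div hG ht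

lemma lowdeg_mean {V : Type} [Fintype V] (G : SimpleGraph V) {t : ℝ}
    (h : ∀ v : V, G.degree v ≤ 5) (ht : 0 < t) : caroWei G t ≤ mean G t := by
  unfold caroWei mean
  apply main_div G t ht
  intro v u w hvu hvw huw _
  have hdeg : 2 ≤ G.degree v := by
    rw [← SimpleGraph.card_neighborFinset_eq_degree]
    have hsub : ({u, w} : Finset V) ⊆ G.neighborFinset v := by
      intro c hc
      rw [Finset.mem_insert, Finset.mem_singleton] at hc
      rcases hc with rfl | rfl
      · exact (G.mem_neighborFinset v _).2 hvu
      · exact (G.mem_neighborFinset v _).2 hvw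
    have := Finset.card_le_card hsub
    rwa [Finset.card_pair huw] at this
  have hbv : (2 : ℝ) ≤ (G.degree v : ℝ) := by exact_mod_cast hdeg
  have hau : (G.degree u : ℝ) ≤ 5 := by exact_mod_cast h u
  have haw : (G.degree w : ℝ) ≤ 5 := by exact_mod_cast h w
  have e : ∀ d : ℝ, 0 ≤ d → d ≤ 5 →
      1 / (1 + ((G.degree v : ℝ) + 1) * t) / 2 ≤ 1 / (1 + (d + 1) * t) := by
    intro d hd0 hd
    rw [div_div, div_le_div_iff₀ (by positivity) (by positivity)]
    nlinarith [mul_le_mul_of_nonneg_right hd ht.le, mul_le_mul_of_nonneg_right hbv ht.le]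
  have e1 := e _ (Nat.cast_nonneg _) hau
  have e2 := e _ (Nat.cast_nonneg _) haw
  linarith

lemma mean_eq {V : Type} [Fintype V] (G : SimpleGraph V) (t : ℝ) :
    mean G t = (∑ I ∈ Ind G, ((I.card : ℕ) : ℝ) * t ^ I.card) / ∑ I ∈ Ind G, t ^ I.card := rfl

lemma mean_induce {V : Type} [Fintype V] {G : SimpleGraph V} (W : Finset V) (t : ℝ) :
    mean (G.induce (↑W : Set V)) t = Mf G t W / Zf G t W := by
  rw [mean_eq, sum_transfer (G := G) W (fun n => ((n : ℕ) : ℝ) * t ^ n),
    sum_transfer (G := G) W (fun n => t ^ n)]
  rfl

lemma caroWei_induce {V : Type} [Fintype V] {G : SimpleGraph V} (W : Finset V) {t : ℝ}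
    (ht : 0 < t) : caroWei (G.induce (↑W : Set V)) t = Sf G (1 + 1 / t) W := by
  unfold caroWei Sf
  refine Finset.sum_bij (fun v _ => (v : V)) ?_ ?_ ?_ ?_
  · intro v _
    exact v.2
  · intro a _ b _ hab
    exact Subtype.ext hab
  · intro b hb
    exact ⟨⟨b, hb⟩, Finset.mem_univ _, rfl⟩
  · intro v _
    rw [share_eq ht, degree_transfer]

lemma good_of_induce {V : Type} [Fintype V] {G : SimpleGraph V} {W : Finset V} {t : ℝ}
    (ht : 0 < t)
    (h : caroWei (G.induce (↑W : Set V)) t ≤ mean (G.induce (↑W : Set V)) t) : Good G W t := by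
  rw [caroWei_induce W ht, mean_induce, le_div_iff₀ (Zf_pos ht W)] at h
  exact h

lemma built_good {V : Type} [Fintype V] {G : SimpleGraph V} {W : Finset V} (h : Built G W) :
    ∀ t : ℝ, 0 < t → Good G W t := by
  induction h with
  | forest W h =>
    intro t ht
    exact good_of_induce ht (forest_mean _ h ht)
  | lowdeg W h =>
    intro t ht
    apply good_of_induce ht
    apply lowdeg_mean _ _ ht
    intro v
    rw [degree_transfer]
    have : nb G W v = W.filter (fun u => G.Adj v u) := by
      ext y
      rw [mem_nb, Finset.mem_filter]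
      tauto
    unfold dg
    rw [this]
    exact h v v.2
  | union A B hAB hno _ _ ihA ihB =>
    intro t ht
    exact good_union ht hAB hno (ihA t ht) (ihB t ht)
  | dominate W v hv hadj _ ih =>
    intro t ht
    exact good_cone ht hv hadj (ih _ (by positivity))

/-- Part 1: if `v0` is adjacent to all other vertices of `G`, then the mean of `G` at `t` is at
least the mean of `G - v0` at `t/(1+t)` plus `t/(1+|V|t)`. Part 2: if moreover Q1's inequality
holds for `G - v0` at `t/(1+t)`, then it holds for `G` at `t`. Part 3: Q1's inequality holds at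
every `t > 0` for every graph obtained from forests and graphs of maximum degree at most 5 by
disjoint unions and adding dominating vertices. -/
theorem result :
    (∀ (V : Type) [Fintype V] (G : SimpleGraph V) (v0 : V) (t : ℝ), 0 < t →
      (∀ u : V, u ≠ v0 → G.Adj v0 u) →
      mean (G.induce (↑(Finset.univ.erase v0) : Set V)) (t / (1 + t))
          + t / (1 + (Fintype.card V : ℝ) * t) ≤ mean G t) ∧
    (∀ (V : Type) [Fintype V] (G : SimpleGraph V) (v0 : V) (t : ℝ), 0 < t →
      (∀ u : V, u ≠ v0 → G.Adj v0 u) →
      caroWei (G.induce (↑(Finset.univ.erase v0) : Set V)) (t / (1 + t))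
        ≤ mean (G.induce (↑(Finset.univ.erase v0) : Set V)) (t / (1 + t)) →
      caroWei G t ≤ mean G t) ∧
    (∀ (V : Type) [Fintype V] (G : SimpleGraph V), Built G Finset.univ →
      ∀ t : ℝ, 0 < t → caroWei G t ≤ mean G t) := by
  refine ⟨?_, ?_, ?_⟩
  · intro V _ G v0 t ht hadj
    have hs : 0 < t / (1 + t) := by positivity
    have hv : v0 ∉ (Finset.univ : Finset V).erase v0 := Finset.notMem_erase _ _
    have hins : insert v0 ((Finset.univ : Finset V).erase v0) = Finset.univ :=
      Finset.insert_erase (Finset.mem_univ v0)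
    have hj := join_one (G := G) ht ((Finset.univ : Finset V).erase v0)
    have hm1 := mean_induce (G := G) ((Finset.univ : Finset V).erase v0) (t / (1 + t))
    have hnb : insert v0 (nb G Finset.univ v0) = Finset.univ := by
      ext y
      rw [Finset.mem_insert, mem_nb]
      constructor
      · intro _; exact Finset.mem_univ y
      · intro _
        by_cases h : y = v0
        · exact Or.inl h
        · exact Or.inr ⟨hadj y h, Finset.mem_univ y⟩
    have hempty : (Finset.univ : Finset V) \ insert v0 (nb G Finset.univ v0) = ∅ := by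
      rw [hnb, Finset.sdiff_self]
    have hZ0 : Zf G t ∅ = 1 := by
      unfold Zf
      have : (Ind G).filter (fun I => I ⊆ (∅ : Finset V)) = {∅} := by
        ext I
        rw [Finset.mem_filter, Finset.mem_singleton, Finset.subset_empty]
        constructor
        · rintro ⟨_, h⟩; exact h
        · rintro rfl; exact ⟨(mem_Ind G).2 (by simp), rfl⟩
      rw [this]
      simp
    have hZi : Zf G t Finset.univ = Zf G t (Finset.univ.erase v0) + t := by
      rw [Z_rec t (Finset.mem_univ v0), hempty, hZ0, mul_one]
    have hMi : Mf G t Finset.univ = Mf G t (Finset.univ.erase v0) + t := by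
      rw [M_rec t (Finset.mem_univ v0), hempty, hZ0, M_zero rfl, add_zero, mul_one]
    have hm2 : mean G t = Mf G t Finset.univ / Zf G t Finset.univ := by
      have hfil : (Ind G).filter (fun I => I ⊆ (Finset.univ : Finset V)) = Ind G := by
        apply Finset.filter_true_of_mem
        intro I _
        exact Finset.subset_univ I
      unfold Mf Zf
      rw [hfil]
      rfl
    have hcard : ((((Finset.univ : Finset V).erase v0).card : ℕ) : ℝ) + 1
        = (Fintype.card V : ℝ) := by
      have := Finset.card_erase_add_one (Finset.mem_univ v0)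
      rw [Finset.card_univ] at this
      exact_mod_cast this
    rw [hm1, hm2, hZi, hMi, ← hcard]
    exact hj
  · intro V _ G v0 t ht hadj h
    have hs : 0 < t / (1 + t) := by positivity
    have hg : Good G ((Finset.univ : Finset V).erase v0) (t / (1 + t)) := good_of_induce hs h
    have := good_cone ht (Finset.notMem_erase v0 _)
      (fun u hu => hadj u (Finset.ne_of_mem_erase hu)) hg
    rw [Finset.insert_erase (Finset.mem_univ v0)] at this
    exact good_univ ht this
  · intro V _ G hB t ht
    exact good_univ ht (built_good hB t ht)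

end Pool.Agent.Results.MP_dc9350_co.DominatingVertex
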