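import Mathlib
import Pool.Agent.H696R3.ForestMain

set_option autoImplicit false
open Classical

namespace Pool.Agent.Results.MP_dc9350_co.Forests

open Pool.Agent.H696R3.Forest

/-- For every finite forest G and every t > 0, the sum over vertices v of t/(1+(deg v+1)t) is at
most the mean size of a random independent set drawn with weight t^|I|. -/
theorem result :
    ∀ (V : Type) [Fintype V] (G : SimpleGraph V) (t : ℝ), G.IsAcyclic → 0 < t →
      (∑ v : V, t / (1 + ((G.degree v : ℝ) + 1) * t)) ≤
        (∑ I ∈ (Finset.univ : Finset (Finset V)).filter
              (fun I : Finset V => G.IsIndepSet (↑I : Set V)),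
            ((Finset.card I : ℕ) : ℝ) * t ^ (Finset.card I)) /
        (∑ I ∈ (Finset.univ : Finset (Finset V)).filter
              (fun I : Finset V => G.IsIndepSet (↑I : Set V)),
            t ^ (Finset.card I)) := by
  intro V _ G t hG ht
  exact forest_div hG ht

end Pool.Agent.Results.MP_dc9350_co.Forests
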